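import Pool.Agent.H23.BallotMaj

/-! The major index of `123`-avoiding linear extensions of `NE_{2,t}`. -/

namespace Pool.Agent.Results.MP_28c202_co.MajCatalan

open Pool.Agent.H23.BallotMaj Polynomial

/-- The order of `NE_{2,t}`: for `x = (i-1)t + k`, `y = (i'-1)t + k'`, `x ⪯ y` iff `i ≥ i'` and
`k ≥ k'`. -/
def NE (t x y : ℕ) : Prop := (y - 1) / t ≤ (x - 1) / t ∧ (y - 1) % t ≤ (x - 1) % t

theorem result (t : ℕ) :
    ∑ w ∈ LE123 (2 * t) (NE t), (X : ℚ[X]) ^ maj w = X ^ (t ^ 2) * ∑ w ∈ CW 0 1 t, X ^ maj w := by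
  have a1 : ∀ i < t, (2 * t - i - 1) / t = 1 ∧ (2 * t - i - 1) % t = t - i - 1 := fun i hi => by
    rw [show 2 * t - i - 1 = t - i - 1 + t by omega, Nat.add_div_right _ (by omega),
      Nat.add_mod_right, Nat.div_eq_of_lt (by omega), Nat.mod_eq_of_lt (by omega)]
    exact ⟨rfl, rfl⟩
  have a2 : ∀ i < t, (t - i - 1) / t = 0 ∧ (t - i - 1) % t = t - i - 1 := fun i hi =>
    ⟨Nat.div_eq_of_lt (by omega), Nat.mod_eq_of_lt (by omega)⟩
  have hR : Rect t (fun a => 2 * t - a) (fun b => t - b) (NE t) := by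
    constructor <;> intro i hi j hj <;>
      simp only [NE, (a1 i hi).1, (a1 i hi).2, (a1 j hj).1, (a1 j hj).2, (a2 i hi).1, (a2 i hi).2,
        (a2 j hj).1, (a2 j hj).2] <;> omega
  rw [LE_eq hR (fun i hi j hj h => by omega) (fun i hi j hj h => by omega), CW_eq (by omega)]
  · refine poly_eq _ _ _ fun q hq => ?_
    obtain ⟨h0, h1, h2⟩ := good_q hq
    have e1 := caseA (α := fun a => 2 * t - a) (β := fun b => t - b) (s := t) h0 h2
      (fun a h => by omega) (fun a h => by omega) (fun a h b h' => by omega)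
    have e2 := catalan (show 0 < 1 by omega) h1 t
    rw [T_symm h0 h1, ← e2] at e1
    rw [sq]
    exact e1
  · intro x
    constructor
    · intro h
      rcases Nat.lt_or_ge t x with h2 | h2
      · exact Or.inl ⟨2 * t - x, by omega, by omega⟩
      · exact Or.inr ⟨t - x, by omega, by omega⟩
    · rintro (⟨i, hi, rfl⟩ | ⟨i, hi, rfl⟩) <;> omega

end Pool.Agent.Results.MP_28c202_co.MajCatalan
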